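import Pool.Agent.Run7.h307.Main

/-!
# Existence of arithmetic degrees over a base, in relative dimension at most one

`K` is a number field, `X = V(I)` an integral closed subvariety of projective `N`-space over `K`,
`f = [F 0 : … : F N]` a rational map from `X` to projective `N`-space, `π = [Φ 0 : … : Φ M]` a
rational map from `X` to projective `M`-space such that any two rational functions on `X` are
algebraically dependent over the function field of the (closure of the) image of `π`; so the
generic fibre of `π` has dimension at most one. Let `x 0, x 1, …` be `K`-points of `X` with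
`f` defined at each `x n` and `f (x n) = x (n + 1)`, and `π` defined at each `x n`, with value `b n`.
Suppose that the sequence `b` is generic: every form on projective `M`-space which does not vanish on
the image of `π` vanishes at only finitely many of the points `b n`. If the arithmetic degree
`lim (max 1 (h (b n))) ^ (1 / n) = β` of the base orbit exists, then so does the arithmetic degree
`lim (max 1 (h (x n))) ^ (1 / n)`, and it is `β` or a positive rational number.
-/

set_option autoImplicit false

open MvPolynomial Filter Topology Run7.h307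

theorem Pool.Agent.Results.MP_195eb9_ag.RelDimOne.result
    (K : Type) [Field K] [NumberField K] (N M : ℕ)
    (I : Ideal (Pol K N)) [I.IsPrime] (_hI : ∀ G ∈ I, ∀ k, homogeneousComponent k G ∈ I)
    (F : Fin (N + 1) → Pol K N) (hF : IsRat I F)
    (Φ : Fin (M + 1) → Pol K N) (hΦ : IsRat I Φ)
    (hdim : ∀ s ∈ ratFun I, ∀ t ∈ ratFun I, ¬ AlgebraicIndependent (ratioField I Φ) ![s, t])
    (x : ℕ → Projectivization K (Fin (N + 1) → K)) (hx : ∀ n, OnX I (x n))
    (hf : ∀ n, MapsTo I F (x n) (x (n + 1)))
    (b : ℕ → Projectivization K (Fin (M + 1) → K)) (hb : ∀ n, MapsTo I Φ (x n) (b n))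
    (hgen : ∀ (G : Pol K M) (e : ℕ), G.IsHomogeneous e → bind₁ Φ G ∉ I →
      {n | eval (b n).rep G = 0}.Finite)
    (β : ℝ) (hβ : Tendsto (fun n : ℕ => (max 1 (b n).logHeight) ^ (1 / (n : ℝ))) atTop (𝓝 β)) :
    ∃ α : ℝ, Tendsto (fun n : ℕ => (max 1 (x n).logHeight) ^ (1 / (n : ℝ))) atTop (𝓝 α) ∧
      (α = β ∨ ∃ p q : ℕ, 0 < p ∧ 0 < q ∧ α = p / q) :=
  main I F hF Φ hΦ hdim x hx hf b hb hgen β hβ
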